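import Mathlib

/-!
# The theorem of El-Zahar and Sauer: `K₃` is multiplicative

Let `φ` be a colouring of `G × H` with the three colours of `Fin 3`.  For an edge `y y'` of `H` and an
edge `x x'` of `G` put `F y y' x x' = sg (φ x y) (φ x' y') + sg (φ x y') (φ x' y)`, where
`sg a b = ± 1` is the sign of the step `b - a`.  For closed walks `p` of `G` the sum of `F y y'` along
`p` does not depend on the edge `y y'` (a coboundary argument).  Comparing with the same sums for the
closed walks of `H` one gets that one of the two graphs is balanced, which gives a colouring of this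
graph with three colours.
-/

set_option autoImplicit false

namespace Pool.Agent.Run7.h658.EZS

open SimpleGraph

/-- the sum of `f` along a walk -/
def wsum {V : Type*} {G : SimpleGraph V} (f : V → V → ℤ) : ∀ {u v : V}, G.Walk u v → ℤ
  | _, _, Walk.nil => 0
  | u, _, Walk.cons (v := w) _ p => f u w + wsum f p

section wsum

variable {V : Type*} {G : SimpleGraph V}

@[simp] theorem wsum_nil (f : V → V → ℤ) (u : V) : wsum f (Walk.nil : G.Walk u u) = 0 := rfl

@[simp] theorem wsum_cons (f : V → V → ℤ) {u v w : V} (h : G.Adj u v) (p : G.Walk v w) :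
    wsum f (Walk.cons h p) = f u v + wsum f p := rfl

theorem wsum_append (f : V → V → ℤ) {u v w : V} (p : G.Walk u v) (q : G.Walk v w) :
    wsum f (p.append q) = wsum f p + wsum f q := by
  induction p with
  | nil => simp
  | cons h p ih => rw [Walk.cons_append, wsum_cons, wsum_cons, ih]; ring

theorem wsum_reverse (f : V → V → ℤ) (hf : ∀ x y, G.Adj x y → f y x = - f x y) {u v : V}
    (p : G.Walk u v) : wsum f p.reverse = - wsum f p := by
  induction p with
  | nil => simp
  | cons h p ih =>
    rw [Walk.reverse_cons, wsum_append, ih, wsum_cons, wsum_cons, wsum_nil, hf _ _ h]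
    ring

theorem wsum_congr {f g : V → V → ℤ} (h : ∀ x y, G.Adj x y → f x y = g x y) {u v : V}
    (p : G.Walk u v) : wsum f p = wsum g p := by
  induction p with
  | nil => rfl
  | cons hh p ih => rw [wsum_cons, wsum_cons, ih, h _ _ hh]

theorem wsum_add (f g : V → V → ℤ) {u v : V} (p : G.Walk u v) :
    wsum (fun x y => f x y + g x y) p = wsum f p + wsum g p := by
  induction p with
  | nil => simp
  | cons hh p ih => rw [wsum_cons, wsum_cons, wsum_cons, ih]; ring

theorem wsum_const {f : V → V → ℤ} {k : ℤ} (h : ∀ x y, G.Adj x y → f x y = k) {u v : V}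
    (p : G.Walk u v) : wsum f p = p.length * k := by
  induction p with
  | nil => simp
  | cons hh p ih => rw [wsum_cons, ih, h _ _ hh, Walk.length_cons]; push_cast; ring

theorem wsum_mod {f : V → V → ℤ} {k n : ℤ} (h : ∀ x y, G.Adj x y → f x y ≡ k [ZMOD n]) {u v : V}
    (p : G.Walk u v) : wsum f p ≡ p.length * k [ZMOD n] := by
  induction p with
  | nil => simp
  | cons hh p ih =>
    rw [wsum_cons, Walk.length_cons]
    have := (h _ _ hh).add ih
    have e : ((p.length + 1 : ℕ) : ℤ) * k = k + p.length * k := by push_cast; ring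
    rw [e]
    exact this

/-- sums of coboundaries -/
theorem wsum_cobd {f g : V → V → ℤ} {k : V → ℤ} (h : ∀ x y, G.Adj x y → f x y - g x y = k x - k y)
    {u v : V} (p : G.Walk u v) : wsum f p - wsum g p = k u - k v := by
  induction p with
  | nil => simp
  | cons hh p ih =>
    rw [wsum_cons, wsum_cons]
    have := h _ _ hh
    linarith

theorem wsum_swap {W : Type*} {H : SimpleGraph W} (g : V → V → W → W → ℤ) {u v : V} {u' v' : W}
    (p : G.Walk u v) (q : H.Walk u' v') :
    wsum (fun x x' => wsum (fun y y' => g x x' y y') q) p =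
      wsum (fun y y' => wsum (fun x x' => g x x' y y') p) q := by
  induction p with
  | nil =>
    rw [wsum_nil]
    symm
    rw [wsum_const (k := 0) (fun _ _ _ => by simp)]
    simp
  | cons hh p ih =>
    rw [wsum_cons, ih, ← wsum_add]
    rfl

end wsum

/-- the sign of a step between different colours -/
def sg (a b : Fin 3) : ℤ := if b = a + 1 then 1 else -1

/-- the sum of two steps -/
def tau (a b : Fin 3) : ℤ := if a = b then 0 else -2 * sg a b

theorem sg_anti : ∀ a b : Fin 3, a ≠ b → sg b a = - sg a b := by decide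

theorem sg_tau : ∀ a a' b : Fin 3, a ≠ b → a' ≠ b → sg a b - sg a' b = tau a a' := by decide

theorem sg_odd : ∀ a b : Fin 3, sg a b % 2 = 1 := by decide

theorem sg_pm : ∀ a b : Fin 3, sg a b = 1 ∨ sg a b = -1 := by decide

theorem sg_sum : ∀ a b c d : Fin 3, a ≠ b → c ≠ d → (sg a b + sg c d = 0 ↔ a + c = b + d) := by decide

/-- the function whose sums along closed walks are studied -/
def F {V W : Type*} (φ : V → W → Fin 3) (y y' : W) (x x' : V) : ℤ :=
  sg (φ x y) (φ x' y') + sg (φ x y') (φ x' y)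

theorem F_symm {V W : Type*} (φ : V → W → Fin 3) (y y' : W) : F φ y y' = F φ y' y := by
  funext x x'
  unfold F
  ring

section main

variable {V W : Type*} {G : SimpleGraph V} {H : SimpleGraph W} {φ : V → W → Fin 3}

theorem F_anti (hφ : ∀ x x' y y', G.Adj x x' → H.Adj y y' → φ x y ≠ φ x' y') {y y' : W}
    (hy : H.Adj y y') (x x' : V) (hx : G.Adj x x') : F φ y y' x' x = - F φ y y' x x' := by
  unfold F
  rw [sg_anti _ _ (hφ x x' y' y hx hy.symm), sg_anti _ _ (hφ x x' y y' hx hy)]
  ring

theorem F_even (y y' : W) (x x' : V) : F φ y y' x x' ≡ 0 [ZMOD 2] := by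
  show F φ y y' x x' % 2 = 0
  unfold F
  have h1 := sg_odd (φ x y) (φ x' y')
  have h2 := sg_odd (φ x y') (φ x' y)
  omega

theorem F_step (hφ : ∀ x x' y y', G.Adj x x' → H.Adj y y' → φ x y ≠ φ x' y') {y y' y'' : W}
    (hy : H.Adj y y') (hy' : H.Adj y' y'') {u : V} (p : G.Walk u u) :
    wsum (F φ y y') p = wsum (F φ y' y'') p := by
  have key := wsum_cobd (G := G) (f := F φ y y') (g := F φ y' y'')
    (k := fun x => tau (φ x y) (φ x y'')) (fun x x' hx => by
      have a1 := sg_tau (φ x y) (φ x y'') (φ x' y') (hφ _ _ _ _ hx hy) (hφ _ _ _ _ hx hy'.symm)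
      have a2 := sg_tau (φ x' y) (φ x' y'') (φ x y') (hφ _ _ _ _ hx.symm hy)
        (hφ _ _ _ _ hx.symm hy'.symm)
      have a3 := sg_anti _ _ (hφ x x' y' y hx hy.symm)
      have a4 := sg_anti _ _ (hφ x x' y' y'' hx hy')
      show sg (φ x y) (φ x' y') + sg (φ x y') (φ x' y) -
        (sg (φ x y') (φ x' y'') + sg (φ x y'') (φ x' y')) = tau (φ x y) (φ x y'') -
        tau (φ x' y) (φ x' y'')
      linarith) p
  linarith

theorem F_const (hφ : ∀ x x' y y', G.Adj x x' → H.Adj y y' → φ x y ≠ φ x' y') {u : V}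
    (p : G.Walk u u) {y z : W} (w : H.Walk y z) : ∀ {y' z' : W}, H.Adj y y' → H.Adj z z' →
    wsum (F φ y y') p = wsum (F φ z z') p := by
  induction w with
  | nil =>
    intro y' z' h1 h2
    rw [F_symm φ _ y']
    exact F_step hφ h1.symm h2 p
  | cons h w ih =>
    intro y' z' h1 h2
    rw [F_symm φ _ y', F_step hφ h1.symm h p, F_symm φ]
    exact ih h.symm h2

/-- the two kinds of sums -/
theorem F_dual (hφ : ∀ x x' y y', G.Adj x x' → H.Adj y y' → φ x y ≠ φ x' y')
    (hG : G.Connected) (hH : H.Connected) {u : V} (p : G.Walk u u) {w : W} (q : H.Walk w w)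
    {x x' : V} (hx : G.Adj x x') {y y' : W} (hy : H.Adj y y') :
    (q.length : ℤ) * wsum (F φ y y') p + p.length * wsum (F (fun b a => φ a b) x x') q ≡
      2 * (p.length * q.length) [ZMOD 4] := by
  have hφ' : ∀ b b' a a', H.Adj b b' → G.Adj a a' →
      (fun b a => φ a b) b a ≠ (fun b a => φ a b) b' a' := fun b b' a a' h1 h2 => hφ a a' b b' h2 h1
  set P : ℤ := wsum (fun a a' => wsum (fun b b' => sg (φ a b) (φ a' b')) q) p with hP
  have hPmod : P ≡ p.length * (q.length * 1) [ZMOD 2] := by
    apply wsum_mod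
    intro a a' _
    apply wsum_mod
    intro b b' _
    exact sg_odd _ _
  have e1 : (q.length : ℤ) * wsum (F φ y y') p =
      wsum (fun b b' => wsum (fun a a' => F φ b b' a a') p) q := by
    symm
    apply wsum_const
    intro b b' hb
    obtain ⟨w1⟩ := hH.preconnected b y
    exact F_const hφ p w1 hb hy
  have e2 : (p.length : ℤ) * wsum (F (fun b a => φ a b) x x') q =
      wsum (fun a a' => wsum (fun b b' => F (fun b a => φ a b) a a' b b') q) p := by
    symm
    apply wsum_const
    intro a a' ha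
    obtain ⟨w1⟩ := hG.preconnected a x
    exact F_const hφ' q w1 ha hx
  have e3 : (q.length : ℤ) * wsum (F φ y y') p + p.length * wsum (F (fun b a => φ a b) x x') q =
      2 * P := by
    rw [e1, e2, ← wsum_swap, ← wsum_add]
    have : 2 * P = P + P := by ring
    rw [this, hP, ← wsum_add]
    apply wsum_congr
    intro a a' ha
    rw [← wsum_add, ← wsum_add]
    apply wsum_congr
    intro b b' hb
    have a1 := sg_anti _ _ (hφ a a' b' b ha hb.symm)
    show sg (φ a b) (φ a' b') + sg (φ a b') (φ a' b) + (sg (φ a b) (φ a' b') +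
      sg (φ a' b) (φ a b')) = sg (φ a b) (φ a' b') + sg (φ a b) (φ a' b')
    linarith
  rw [e3]
  have h2 : P ≡ (p.length * q.length : ℤ) [ZMOD 2] := by rw [mul_one] at hPmod; exact hPmod
  have h3 := h2.mul_left' (c := 2)
  norm_num at h3
  exact h3

/-- a balanced factor has a colouring with three colours -/
theorem colorable_of_balanced (hφ : ∀ x x' y y', G.Adj x x' → H.Adj y y' → φ x y ≠ φ x' y')
    (hG : G.Connected) {y y' : W} (hy : H.Adj y y')
    (hbal : ∀ (u : V) (p : G.Walk u u), wsum (F φ y y') p ≡ 2 * p.length [ZMOD 4]) :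
    G.Colorable 3 := by
  classical
  obtain ⟨r⟩ := hG.nonempty
  have hw : ∀ v : V, Nonempty (G.Walk r v) := fun v => hG.preconnected r v
  let w : ∀ v : V, G.Walk r v := fun v => (hw v).some
  set B : V → ℤ := fun v => wsum (F φ y y') (w v) + 2 * (w v).length with hB
  have hBeven : ∀ v, B v % 2 = 0 := by
    intro v
    have h1 : wsum (F φ y y') (w v) ≡ (w v).length * 0 [ZMOD 2] :=
      wsum_mod (fun a a' _ => F_even y y' a a') (w v)
    rw [mul_zero] at h1
    have h2 : wsum (F φ y y') (w v) % 2 = 0 := h1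
    show (wsum (F φ y y') (w v) + 2 * (w v).length) % 2 = 0
    omega
  have hstep : ∀ v v', G.Adj v v' → B v' - B v ≡ F φ y y' v v' + 2 [ZMOD 4] := by
    intro v v' hv
    have h1 := hbal r ((w v).append (Walk.cons hv (w v').reverse))
    rw [wsum_append, wsum_cons, wsum_reverse _ (F_anti hφ hy), Walk.length_append,
      Walk.length_cons, Walk.length_reverse] at h1
    push_cast at h1
    have h2 := Int.emod_emod_of_dvd
    show B v' - B v ≡ F φ y y' v v' + 2 [ZMOD 4]
    have h3 : (4 : ℤ) ∣ 2 * (((w v).length : ℤ) + (((w v').length : ℤ) + 1)) -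
        (wsum (F φ y y') (w v) + (F φ y y' v v' + - wsum (F φ y y') (w v'))) := h1.dvd
    apply Int.modEq_iff_dvd.mpr
    have h4 : F φ y y' v v' + 2 - (B v' - B v) =
        -(2 * (((w v).length : ℤ) + (((w v').length : ℤ) + 1)) -
        (wsum (F φ y y') (w v) + (F φ y y' v v' + - wsum (F φ y y') (w v')))) +
        4 * ((w v).length + 1) := by
      simp only [hB]
      ring
    rw [h4]
    exact dvd_add (dvd_neg.mpr h3) (Dvd.intro _ rfl)
  let β : V → Fin 3 := fun v => if B v % 4 = 0 then 0 else 1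
  refine ⟨Coloring.mk (fun v => φ v y + φ v y' + β v) ?_⟩
  intro v v' hv heq
  have h1 := hstep v v' hv
  have h2 := hBeven v
  have h3 := hBeven v'
  have n1 := hφ v v' y y' hv hy
  have n2 := hφ v v' y' y hv hy.symm
  have hs := sg_sum _ _ _ _ n1 n2
  have h1' : (B v' - B v) % 4 = (F φ y y' v v' + 2) % 4 := h1
  have heq' : φ v y + φ v y' + β v = φ v' y + φ v' y' + β v' := heq
  by_cases hF : F φ y y' v v' = 0
  · -- the parities differ
    have h4 : φ v y + φ v y' = φ v' y' + φ v' y := hs.mp hF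
    rw [h4, add_comm (φ v' y')] at heq'
    have h5 : β v = β v' := by simpa using heq'
    rw [hF] at h1'
    simp only [β] at h5
    split_ifs at h5 with c1 c2 c2
    · omega
    · exact absurd h5 (by decide)
    · exact absurd h5 (by decide)
    · omega
  · have h4 : ¬ (φ v y + φ v y' = φ v' y' + φ v' y) := fun h => hF (hs.mpr h)
    have h6 : F φ y y' v v' = 2 ∨ F φ y y' v v' = -2 := by
      have h7 : F φ y y' v v' = sg (φ v y) (φ v' y') + sg (φ v y') (φ v' y) := rfl
      rcases sg_pm (φ v y) (φ v' y') with a1 | a1 <;> rcases sg_pm (φ v y') (φ v' y) with a2 | a2 <;>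
        rw [a1, a2] at h7 <;> omega
    have h5 : β v = β v' := by
      simp only [β]
      split_ifs with c1 c2 c2
      · rfl
      · omega
      · omega
      · rfl
    rw [h5] at heq'
    apply h4
    rw [add_comm (φ v' y')]
    exact add_right_cancel heq'

/-- El-Zahar and Sauer, connected graphs -/
theorem ezs_connected (hφ : ∀ x x' y y', G.Adj x x' → H.Adj y y' → φ x y ≠ φ x' y')
    (hG : G.Connected) (hH : H.Connected) : G.Colorable 3 ∨ H.Colorable 3 := by
  by_cases bG : G.Colorable 2
  · exact Or.inl (bG.mono (by norm_num))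
  by_cases bH : H.Colorable 2
  · exact Or.inr (bH.mono (by norm_num))
  rw [two_colorable_iff_forall_loop_even] at bG bH
  push Not at bG bH
  obtain ⟨u₀, p₀, hp₀⟩ := bG
  obtain ⟨w₀, q₀, hq₀⟩ := bH
  rw [Nat.not_even_iff_odd] at hp₀ hq₀
  have hex : ∃ x x', G.Adj x x' := by
    cases p₀ with
    | nil => simp at hp₀
    | cons h p => exact ⟨_, _, h⟩
  have hey : ∃ y y', H.Adj y y' := by
    cases q₀ with
    | nil => simp at hq₀
    | cons h p => exact ⟨_, _, h⟩
  obtain ⟨x, x', hx⟩ := hex
  obtain ⟨y, y', hy⟩ := hey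
  have hφ' : ∀ b b' a a', H.Adj b b' → G.Adj a a' →
      (fun b a => φ a b) b a ≠ (fun b a => φ a b) b' a' := fun b b' a a' h1 h2 => hφ a a' b b' h2 h1
  have ev1 : ∀ (u : V) (p : G.Walk u u), wsum (F φ y y') p % 2 = 0 := by
    intro u p
    have h1 : wsum (F φ y y') p ≡ p.length * 0 [ZMOD 2] :=
      wsum_mod (fun a a' _ => F_even y y' a a') p
    rw [mul_zero] at h1
    exact h1
  have ev2 : ∀ (u : W) (q : H.Walk u u), wsum (F (fun b a => φ a b) x x') q % 2 = 0 := by
    intro u q
    have h1 : wsum (F (fun b a => φ a b) x x') q ≡ q.length * 0 [ZMOD 2] :=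
      wsum_mod (fun a a' _ => F_even x x' a a') q
    rw [mul_zero] at h1
    exact h1
  obtain ⟨k, hk⟩ := hp₀
  obtain ⟨l, hl⟩ := hq₀
  by_cases h4 : wsum (F (fun b a => φ a b) x x') q₀ % 4 = 0
  · left
    refine colorable_of_balanced hφ hG hy fun u p => ?_
    have h5 := F_dual hφ hG hH p q₀ hx hy
    obtain ⟨c, hc⟩ : ∃ c, wsum (F (fun b a => φ a b) x x') q₀ = 4 * c :=
      ⟨_, (Int.ediv_mul_cancel (Int.dvd_of_emod_eq_zero h4)).symm.trans (mul_comm _ _)⟩
    obtain ⟨e, he⟩ : ∃ e, wsum (F φ y y') p = 2 * e :=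
      ⟨_, (Int.ediv_mul_cancel (Int.dvd_of_emod_eq_zero (ev1 u p))).symm.trans (mul_comm _ _)⟩
    rw [hc, hl, he] at h5
    rw [he]
    have h6 := h5.dvd
    apply Int.modEq_iff_dvd.mpr
    obtain ⟨d, hd⟩ := h6
    push_cast at hd
    refine ⟨d - l * (p.length - e) + p.length * c, ?_⟩
    linear_combination hd
  · right
    have h4' : wsum (F (fun b a => φ a b) x x') q₀ % 4 = 2 := by
      have := ev2 w₀ q₀
      omega
    have h5 := F_dual hφ hG hH p₀ q₀ hx hy
    obtain ⟨c, hc⟩ : ∃ c, wsum (F (fun b a => φ a b) x x') q₀ = 4 * c + 2 :=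
      ⟨wsum (F (fun b a => φ a b) x x') q₀ / 4, by omega⟩
    obtain ⟨e, he⟩ : ∃ e, wsum (F φ y y') p₀ = 4 * e := by
      obtain ⟨e', he'⟩ : ∃ e, wsum (F φ y y') p₀ = 2 * e :=
        ⟨_, (Int.ediv_mul_cancel (Int.dvd_of_emod_eq_zero (ev1 u₀ p₀))).symm.trans (mul_comm _ _)⟩
      rw [hc, hl, hk, he'] at h5
      obtain ⟨d, hd⟩ := h5.dvd
      push_cast at hd
      -- `e'` is even
      have h7 : e' = 2 * (2 * ((k : ℤ) * l) + k + l - l * e' - (2 * k + 1) * c - k - d) +
          (1 - 1) := by
        linarith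
      refine ⟨2 * ((k : ℤ) * l) + k + l - l * e' - (2 * k + 1) * c - k - d, ?_⟩
      rw [he']
      linarith
    refine colorable_of_balanced hφ' hH hx fun u q => ?_
    have h8 := F_dual hφ hG hH p₀ q hx hy
    obtain ⟨f, hf⟩ : ∃ f, wsum (F (fun b a => φ a b) x x') q = 2 * f :=
      ⟨_, (Int.ediv_mul_cancel (Int.dvd_of_emod_eq_zero (ev2 u q))).symm.trans (mul_comm _ _)⟩
    rw [he, hk, hf] at h8
    rw [hf]
    apply Int.modEq_iff_dvd.mpr
    obtain ⟨d, hd⟩ := h8.dvd
    push_cast at hd
    refine ⟨d - k * (q.length - f) + q.length * e, ?_⟩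
    linear_combination hd

end main

/-- **El-Zahar and Sauer**: if the product of two graphs has a colouring with three colours, then one of
the two graphs has. -/
theorem el_zahar_sauer {V W : Type*} {G : SimpleGraph V} {H : SimpleGraph W} (φ : V → W → Fin 3)
    (hφ : ∀ x x' y y', G.Adj x x' → H.Adj y y' → φ x y ≠ φ x' y') :
    G.Colorable 3 ∨ H.Colorable 3 := by
  by_contra hcon
  push Not at hcon
  obtain ⟨h1, h2⟩ := hcon
  rw [colorable_iff_forall_connectedComponent] at h1 h2
  push Not at h1 h2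
  obtain ⟨c, hc⟩ := h1
  obtain ⟨d, hd⟩ := h2
  have := ezs_connected (G := c.toSimpleGraph) (H := d.toSimpleGraph)
    (φ := fun x y => φ (c.toSimpleGraph_hom x) (d.toSimpleGraph_hom y))
    (fun x x' y y' hx hy => hφ _ _ _ _ (c.toSimpleGraph_hom.map_adj hx)
      (d.toSimpleGraph_hom.map_adj hy)) c.connected_toSimpleGraph d.connected_toSimpleGraph
  rcases this with h | h
  · exact hc h
  · exact hd h

end Pool.Agent.Run7.h658.EZS
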